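import Mathlib
import Pool.Agent.Q291.PO.Core
import Pool.Agent.Q291.PO.Need
import Pool.Agent.Q291.PO.Need6
import Pool.Agent.Q291.PO.Need7e
import Pool.Agent.Q291.PO.Base
import Pool.Agent.Q291.PO.Base6
import Pool.Agent.Q291.PO.Base7

/-!
# For which orders are `P_5`, `P_6`, `P_7` not forced by the other path properties?

`HasPath G u v i`: some list of `i` distinct vertices, consecutive ones adjacent, starts at `u`
and ends at `v`.  `Joined G i`: this holds for every two distinct vertices (property `P_i`).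
-/

namespace Pool.Agent.Results.MP_ccc55c_co.SmallIndices

open Pool.Agent.Q291.PO

/-- The closure of `S` for graphs of order `n`. -/
def closure (n : ℕ) (S : Set ℕ) : Set ℕ :=
  {j | 2 ≤ j ∧ j ≤ n ∧ ∀ G : SimpleGraph (Fin n), (∀ i ∈ S, Joined G i) → Joined G j}

/-- The set `J(n)`. -/
def J (n : ℕ) : Set ℕ :=
  {j | 3 ≤ j ∧ j ≤ n ∧ ∀ S : Set ℕ, S ⊆ Set.Icc 3 n → j ∈ closure n S → j ∈ S}

lemma forced5 {n : ℕ} (h6 : 6 ≤ n) (h10 : n ≤ 10) : 5 ∈ closure n {3, n} := by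
  refine ⟨by norm_num, by omega, fun G hG => ?_⟩
  by_contra h5
  have h := need G (by simpa using h6) (hG 3 (by simp))
    (by simpa using hG n (by simp)) h5
  simp at h
  omega

lemma forced6 {n : ℕ} (h7 : 7 ≤ n) : 6 ∈ closure n {3, n} := by
  refine ⟨by norm_num, by omega, fun G hG => ?_⟩
  exact need6 (by simpa using h7) (hG 3 (by simp)) (by simpa using hG n (by simp))

lemma forced7 {n : ℕ} (h8 : 8 ≤ n) : 7 ∈ closure n {3, n} := by
  refine ⟨by norm_num, by omega, fun G hG => ?_⟩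
  exact need7 (by simpa using h8) (hG 3 (by simp)) (by simpa using hG n (by simp))

lemma notMem {n j : ℕ} (hn : 3 ≤ n) (h : j ∈ closure n {3, n}) (h3 : j ≠ 3) (hjn : j ≠ n) :
    j ∉ J n := by
  intro hJ
  have hS : ({3, n} : Set ℕ) ⊆ Set.Icc 3 n := by
    intro i hi
    rcases hi with rfl | rfl
    · exact ⟨le_rfl, by omega⟩
    · exact ⟨by omega, le_rfl⟩
  rcases hJ.2.2 {3, n} hS h with h' | h'
  · exact h3 h'
  · exact hjn h'

lemma mem_of_graph {n j : ℕ} (hj : 3 ≤ j) (hn : j ≤ n) (G : SimpleGraph (Fin n))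
    (hG : ∀ i, 3 ≤ i → i ≤ n → i ≠ j → Joined G i) (hno : ¬ Joined G j) : j ∈ J n := by
  refine ⟨hj, hn, fun S hS hcl => ?_⟩
  by_contra h
  refine hno (hcl.2.2 G fun i hi => ?_)
  have h1 := hS hi
  exact hG i h1.1 h1.2 (fun h' => h (h' ▸ hi))

theorem result :
    (∀ n : ℕ, 5 ∈ J n ↔ n = 5 ∨ 11 ≤ n) ∧
    (∀ n : ℕ, 6 ∈ J n ↔ n = 6) ∧
    (∀ n : ℕ, 7 ∈ J n ↔ n = 7) ∧
    (∀ n : ℕ, 6 ≤ n → n ≤ 10 → 5 ∈ closure n {3, n}) ∧
    (∀ n : ℕ, 7 ≤ n → 6 ∈ closure n {3, n}) ∧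
    (∀ n : ℕ, 8 ≤ n → 7 ∈ closure n {3, n}) := by
  refine ⟨fun n => ⟨fun h => ?_, fun h => ?_⟩, fun n => ⟨fun h => ?_, fun h => ?_⟩,
    fun n => ⟨fun h => ?_, fun h => ?_⟩, fun n h6 h10 => forced5 h6 h10,
    fun n h7 => forced6 h7, fun n h8 => forced7 h8⟩
  · by_contra hn
    push Not at hn
    have h5 : 5 ≤ n := h.2.1
    exact notMem (by omega) (forced5 (by omega) (by omega)) (by norm_num) (Ne.symm hn.1) h
  · rcases h with rfl | h
    · refine mem_of_graph (by norm_num) le_rfl G5 (fun i h3 h5 hne => joined5 h3 (by omega)) ?_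
      intro hj
      exact not5 (hj 3 4 (by decide))
    · obtain ⟨G, hG, h5⟩ := exists_fin n h
      exact mem_of_graph (by norm_num) (by omega) G hG h5
  · by_contra hn
    have h6 : 6 ≤ n := h.2.1
    exact notMem (by omega) (forced6 (by omega)) (by norm_num) (Ne.symm hn) h
  · subst h
    refine mem_of_graph (by norm_num) le_rfl G6 (fun i h3 h6 hne => joined6 h3 (by omega)) ?_
    intro hj
    exact not6 (hj 0 1 (by decide))
  · by_contra hn
    have h7 : 7 ≤ n := h.2.1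
    exact notMem (by omega) (forced7 (by omega)) (by norm_num) (Ne.symm hn) h
  · subst h
    refine mem_of_graph (by norm_num) le_rfl G7 (fun i h3 h7 hne => joined7 h3 (by omega)) ?_
    intro hj
    exact not7 (hj 0 1 (by decide))

end Pool.Agent.Results.MP_ccc55c_co.SmallIndices
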